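import Pool.Agent.T9h67.NF.Gen
import Pool.Agent.T9h89.QD.EndQ

/-!
# `EndN`: the endgame (polarisation) for number fields; a port of helper89's `T9h89/QD/EndQ.lean`

Author: helper67.
-/

set_option autoImplicit false

namespace Pool.Agent.T9h67.NF

open Finset NumberField H39Gon Pool.Agent.T9h77.NF Pool.Agent.T9h89.QD
open scoped TensorProduct nonZeroDivisors

theorem cop_unit {R : Type} [CommRing R] {x y : R} (hx : IsUnit x) : IsCoprime x y := by
  obtain ⟨u, rfl⟩ := hx
  exact ⟨((u⁻¹ : Rˣ) : R), 0, by simp⟩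

section B

variable {K : Type} [Field K] [NumberField K]

/-- factor of `A` -/
noncomputable def ft : Option (Zt K) → Bool → 𝓞 K
  | some p, b => if b then gen p ^ 2 else gen p
  | none, _ => 1

/-- exponent -/
def et : Option (Zt K) → Bool → ℕ
  | some _, _ => 0
  | none, b => if b then 1 else 2

/-- directions -/
def zt {V Z : Type} [AddCommGroup V] (ep : Z → V) (v : Z) : Option Z → V × V
  | some p => (ep p, 0)
  | none => (ep v, ep v)

theorem ft_ne (t : Option (Zt K)) (b : Bool) : ft t b ≠ 0 := by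
  rcases t with _ | p
  · exact one_ne_zero
  · simp only [ft]
    split_ifs
    · exact pow_ne_zero _ (gen_ne p)
    · exact gen_ne p

theorem ft_mem {q : Ideal (𝓞 K)} (hq : q.IsPrime) (t : Option (Zt K)) (b : Bool) :
    ft t b ∈ q ↔ ∃ p, t = some p ∧ gen p ∈ q := by
  rcases t with _ | p
  · simp only [ft, reduceCtorEq, false_and, exists_false, iff_false]
    intro h
    exact hq.ne_top ((Ideal.eq_top_iff_one q).mpr h)
  · simp only [ft, Option.some.injEq, exists_eq_left']
    split_ifs
    · exact hq.pow_mem_iff_mem 2 (by norm_num)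
    · exact Iff.rfl

theorem ft_cop {y : 𝓞 K} (t : Option (Zt K)) (b : Bool)
    (h : ∀ p, t = some p → IsCoprime (gen p) y) : IsCoprime (ft t b) y := by
  rcases t with _ | p
  · exact isCoprime_one_left
  · simp only [ft]
    split_ifs
    · exact (h p rfl).pow_left
    · exact h p rfl

theorem rel1 (v : Zt K) (t : Option (Zt K)) (b : Bool) :
    (co (ft t b) - et t b • co (gen v)) - (co (ft t false) - et t false • co (gen v)) =
      if b then (zt ez v t).1 else 0 := by
  rcases t with _ | p
  · cases b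
    · simp
    · simp only [ft, et, zt, if_true, Bool.false_eq_true, if_false, one_smul, two_smul, ez]
      abel
  · cases b
    · simp
    · simp only [ft, et, zt, if_true, Bool.false_eq_true, if_false, zero_smul,
        co_pow (gen_ne p), two_smul, ez]
      abel

theorem rel2 (v : Zt K) (t : Option (Zt K)) (b : Bool) :
    et t false • co (gen v) - et t b • co (gen v) = if b then (zt ez v t).2 else 0 := by
  rcases t with _ | p
  · cases b
    · simp
    · simp only [et, zt, if_true, Bool.false_eq_true, if_false, one_smul, two_smul, ez]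
      abel
  · cases b
    · simp
    · simp [et, zt]

/-- typical points on a cube -/
theorem cube {m : ℕ} {E : Type}
    (Q : ∀ μ : Fin m, MultilinearMap ℝ (fun _ : Fin (μ : ℕ) => VK K) (VK K →ₗ[ℝ] ℝ))
    (P : ∀ (_ : E) (μ : Fin m), MultilinearMap ℝ (fun _ : Fin (μ : ℕ) => VK K) ℝ)
    (hTP : ∀ ϖ₁ ϖ₂ l : 𝓞 K, PPow 1 ϖ₁ → PPow 1 ϖ₂ → PPow 0 l →
      IsCoprime ϖ₁ ϖ₂ → IsCoprime ϖ₁ l → IsCoprime ϖ₂ l → ∀ T : ℕ,
    ∃ w : ℕ, ∀ (I : Type) [Fintype I] (A : I → 𝓞 K) (ex : I → ℕ), Fintype.card I ≤ T →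
      (∀ i, 1 ≤ ex i ∧ ex i ≤ T) →
      (∀ i, A i ≠ 0 ∧ IsCoprime (A i) (ϖ₁ * ϖ₂ * l)) →
      (∀ (i : I) (p : Ideal (𝓞 K)), p.IsPrime → p ≠ ⊥ → Ideal.absNorm p ≤ w →
        A i * (ϖ₁ * ϖ₂ * l) ∈ p) →
      (∀ (i j : I) (p : Ideal (𝓞 K)), p.IsPrime → (A i ∈ p ↔ A j ∈ p)) →
      ∃ a b c : 𝓞 K, a ≠ 0 ∧ b ≠ 0 ∧ c ≠ 0 ∧ ∀ i,
        ∑ μ, Q μ (fun _ => co a + co (A i) - co b - co (l ^ ex i))
          (co c - co b - co (l ^ ex i)) = 0 ∧
        ∀ k, ∑ μ, P k μ (fun _ => co a + co (A i) - co b - co (l ^ ex i)) = 0)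
    (v : Zt K) (L : List (Option (Zt K))) (hL : ∀ p, some p ∈ L → IsCoprime (gen p) (gen v))
    (e0 : ℕ) (he : 1 ≤ e0 ∨ none ∈ L) :
    ∃ g h : VK K, ∀ ε : Fin L.length → Bool,
      ∑ μ, Q μ (fun _ => g + ∑ i, if ε i then (zt ez v (L.get i)).1 else 0)
        (h + ∑ i, if ε i then (zt ez v (L.get i)).2 else 0) = 0 ∧
      ∀ k, ∑ μ, P k μ (fun _ => g + ∑ i, if ε i then (zt ez v (L.get i)).1 else 0) = 0 := by
  classical
  -- the prime ideals which occur
  set occ : Pr K → Prop := fun q => gen v ∈ q.1 ∨ ∃ p : Zt K, some p ∈ L ∧ gen p ∈ q.1 with hocc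
  have hfin1 : ∀ z : Zt K, Set.Finite {q : Pr K | gen z ∈ q.1} := by
    intro z
    rcases z with p | u
    · refine Set.Finite.subset (Set.finite_singleton p) ?_
      intro q hq
      by_contra hne
      exact not_cop q.2.1 hq (xp_mem q) (cop_of_ne (Ne.symm hne))
    · refine Set.Finite.subset Set.finite_empty ?_
      intro q hq
      exact absurd (Ideal.eq_top_of_isUnit_mem q.1 hq u.isUnit) q.2.1.ne_top
  have hfin : Set.Finite {q | occ q} := by
    have h1 : {q | occ q} ⊆ {q : Pr K | gen v ∈ q.1} ∪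
        ⋃ t ∈ L.toFinset, {q : Pr K | ∃ p : Zt K, t = some p ∧ gen p ∈ q.1} := by
      intro q hq
      rcases hq with h | ⟨p, hp, h⟩
      · exact .inl h
      · right
        rw [Set.mem_iUnion₂]
        exact ⟨some p, List.mem_toFinset.mpr hp, p, rfl, h⟩
    refine Set.Finite.subset ((hfin1 v).union ?_) h1
    refine Set.Finite.biUnion (Finset.finite_toSet _) fun t _ => ?_
    rcases t with _ | p
    · refine Set.Finite.subset Set.finite_empty ?_
      rintro q ⟨p, hp, -⟩
      exact absurd hp (by simp)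
    · refine Set.Finite.subset (hfin1 p) ?_
      rintro q ⟨p', hp', h⟩
      rw [Option.some.injEq] at hp'
      rw [hp']
      exact h
  obtain ⟨P₁, ho1⟩ := exists_notMem _ hfin
  obtain ⟨P₂, ho2'⟩ := exists_notMem _ (hfin.union (Set.finite_singleton P₁))
  have ho2 : ¬ occ P₂ := fun h => ho2' (.inl h)
  have h12 : P₁ ≠ P₂ := fun h => ho2' (.inr h.symm)
  -- prime generators are coprime to elements which are not in the prime ideal
  have hcopz : ∀ (q : Pr K) (z : Zt K), gen z ∉ q.1 → IsCoprime (gen z) (xp q) := by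
    intro q z hz
    rcases z with p | u
    · refine cop_of_ne ?_
      rintro rfl
      exact hz (xp_mem p)
    · exact cop_unit u.isUnit
  obtain ⟨w, hw⟩ := hTP (xp P₁) (xp P₂) (gen v) (ppow1 P₁) (ppow1 P₂) (ppow v) (cop_of_ne h12)
    (hcopz P₁ v fun h => ho1 (.inl h)).symm (hcopz P₂ v fun h => ho2 (.inl h)).symm
    (2 ^ L.length + e0 + 2 * L.length)
  have hSfin : Set.Finite {q : Pr K | Ideal.absNorm q.1 ≤ w ∧ ¬ occ q ∧ q ≠ P₁ ∧ q ≠ P₂} := by
    have h1 : Set.Finite {q : Pr K | Ideal.absNorm q.1 ≤ w} :=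
      Set.Finite.preimage (Subtype.val_injective.injOn) (Ideal.finite_setOfPred_absNorm_le w)
    exact h1.subset fun q hq => hq.1
  set S : Finset (Pr K) := hSfin.toFinset with hS
  have hSm : ∀ q, q ∈ S ↔ Ideal.absNorm q.1 ≤ w ∧ ¬ occ q ∧ q ≠ P₁ ∧ q ≠ P₂ := by
    intro q
    rw [hS, Set.Finite.mem_toFinset]
    rfl
  set A₀ : 𝓞 K := ∏ q ∈ S, xp q with hA0
  have hA0n : A₀ ≠ 0 := Finset.prod_ne_zero_iff.2 fun q _ => xp_ne q
  set A : (Fin L.length → Bool) → 𝓞 K := fun ε => A₀ * ∏ i, ft (L.get i) (ε i) with hA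
  have hpn : ∀ ε : Fin L.length → Bool, ∏ i, ft (L.get i) (ε i) ≠ 0 := fun ε =>
    Finset.prod_ne_zero_iff.2 fun i _ => ft_ne _ _
  have hAn : ∀ ε, A ε ≠ 0 := fun ε => mul_ne_zero hA0n (hpn ε)
  set ex : (Fin L.length → Bool) → ℕ := fun ε => e0 + ∑ i, et (L.get i) (ε i) with hex
  have hmem : ∀ (q : Ideal (𝓞 K)), q.IsPrime → ∀ ε, A ε ∈ q ↔
      (A₀ ∈ q ∨ ∃ p : Zt K, some p ∈ L ∧ gen p ∈ q) := by
    intro q hq ε
    rw [hA]
    simp only
    rw [hq.mul_mem_iff_mem_or_mem]
    refine or_congr Iff.rfl ?_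
    rw [Ideal.IsPrime.prod_mem_iff (hp := hq)]
    constructor
    · rintro ⟨i, _, hd⟩
      obtain ⟨p, hp, h⟩ := (ft_mem hq _ _).1 hd
      exact ⟨p, hp ▸ List.get_mem L i, h⟩
    · rintro ⟨p, hp, h⟩
      obtain ⟨i, hi⟩ := List.mem_iff_get.1 hp
      exact ⟨i, mem_univ _, (ft_mem hq _ _).2 ⟨p, hi, h⟩⟩
  have hw0 := hw (Fin L.length → Bool) A ex ?_ ?_ ?_ ?_ ?_
  · obtain ⟨a, b, c, _, _, _, hz⟩ := hw0
    refine ⟨co a + co A₀ - co b - e0 • co (gen v) +
        ∑ i, (co (ft (L.get i) false) - et (L.get i) false • co (gen v)),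
      co c - co b - e0 • co (gen v) - ∑ i, et (L.get i) false • co (gen v), fun ε => ?_⟩
    have h1 : co (A ε) = co A₀ + ∑ i, co (ft (L.get i) (ε i)) := by
      rw [hA]
      simp only
      rw [co_mul hA0n (hpn ε), co_prod _ _ fun i _ => ft_ne _ _]
    have h2 : co (gen v ^ ex ε) = e0 • co (gen v) + ∑ i, et (L.get i) (ε i) • co (gen v) := by
      rw [co_pow (gen_ne v), hex]
      simp only
      rw [add_smul, Finset.sum_smul]
    have h3 : co a + co A₀ - co b - e0 • co (gen v) +
        ∑ i, (co (ft (L.get i) false) - et (L.get i) false • co (gen v)) +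
        ∑ i, (if ε i then (zt ez v (L.get i)).1 else 0) =
        co a + co (A ε) - co b - co (gen v ^ ex ε) := by
      rw [Finset.sum_congr rfl fun i _ => (rel1 v (L.get i) (ε i)).symm, h1, h2]
      simp only [Finset.sum_sub_distrib]
      abel
    have h4 : co c - co b - e0 • co (gen v) - ∑ i, et (L.get i) false • co (gen v) +
        ∑ i, (if ε i then (zt ez v (L.get i)).2 else 0) = co c - co b - co (gen v ^ ex ε) := by
      rw [Finset.sum_congr rfl fun i _ => (rel2 v (L.get i) (ε i)).symm, h2]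
      simp only [Finset.sum_sub_distrib]
      abel
    rw [h3, h4]
    exact hz ε
  · rw [Fintype.card_fun, Fintype.card_bool, Fintype.card_fin]
    omega
  · intro ε
    constructor
    · rcases he with he | he
      · exact he.trans (Nat.le_add_right _ _)
      · obtain ⟨i, hi⟩ := List.mem_iff_get.1 he
        have h1 : et (L.get i) (ε i) ≤ ∑ i, et (L.get i) (ε i) :=
          Finset.single_le_sum (f := fun i => et (L.get i) (ε i)) (fun _ _ => Nat.zero_le _)
            (mem_univ i)
        have h2 : 1 ≤ et (L.get i) (ε i) := by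
          rw [hi]
          simp only [et]
          split_ifs <;> norm_num
        show 1 ≤ e0 + ∑ i, et (L.get i) (ε i)
        omega
    · have h1 : ∑ i, et (L.get i) (ε i) ≤ ∑ _i : Fin L.length, 2 := by
        refine Finset.sum_le_sum fun i _ => ?_
        rcases L.get i with _ | p
        · simp only [et]
          split_ifs <;> norm_num
        · simp only [et]; norm_num
      rw [Finset.sum_const, Finset.card_univ, Fintype.card_fin, smul_eq_mul] at h1
      show e0 + ∑ i, et (L.get i) (ε i) ≤ _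
      have := Nat.zero_le (2 ^ L.length)
      omega
  · intro ε
    refine ⟨hAn ε, ?_⟩
    have h2 : ∀ q ∈ S, ¬ occ q ∧ q ≠ P₁ ∧ q ≠ P₂ := fun q hq => ((hSm q).1 hq).2
    have h1 : ∀ y : 𝓞 K, (∀ q ∈ S, IsCoprime (xp q) y) → (∀ p, some p ∈ L → IsCoprime (gen p) y) →
        IsCoprime (A ε) y := by
      intro y ha hb
      refine IsCoprime.mul_left (IsCoprime.prod_left fun q hq => ha q hq)
        (IsCoprime.prod_left fun i _ => ft_cop _ _ fun p hp => hb p (hp ▸ List.get_mem L i))
    refine IsCoprime.mul_right (IsCoprime.mul_right (h1 _ ?_ ?_) (h1 _ ?_ ?_)) (h1 _ ?_ ?_)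
    · exact fun q hq => cop_of_ne (h2 q hq).2.1
    · exact fun p hp => hcopz P₁ p fun h => ho1 (.inr ⟨p, hp, h⟩)
    · exact fun q hq => cop_of_ne (h2 q hq).2.2
    · exact fun p hp => hcopz P₂ p fun h => ho2 (.inr ⟨p, hp, h⟩)
    · exact fun q hq => (hcopz q v fun h => (h2 q hq).1 (.inl h)).symm
    · exact hL
  · intro ε q hq hq0 hqw
    set q' : Pr K := ⟨q, hq, hq0⟩ with hq'
    by_cases h1 : A ε ∈ q
    · exact q.mul_mem_right _ h1
    · rw [hmem q hq] at h1
      push Not at h1
      have h2 : occ q' ∨ q' = P₁ ∨ q' = P₂ := by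
        by_contra hcon
        push Not at hcon
        refine h1.1 ?_
        have h3 : q' ∈ S := (hSm q').2 ⟨hqw, hcon.1, hcon.2.1, hcon.2.2⟩
        have h4 : xp q' ∣ A₀ := Finset.dvd_prod_of_mem _ h3
        exact q.mem_of_dvd h4 (xp_mem q')
      refine q.mul_mem_left _ ?_
      rcases h2 with (h2 | ⟨p, hp, h2⟩) | h2 | h2
      · exact q.mul_mem_left _ h2
      · exact absurd h2 (h1.2 p hp)
      · have h3 : xp P₁ ∈ q := by
          rw [← h2]
          exact xp_mem q'
        exact q.mul_mem_right _ (q.mul_mem_right _ h3)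
      · have h3 : xp P₂ ∈ q := by
          rw [← h2]
          exact xp_mem q'
        exact q.mul_mem_right _ (q.mul_mem_left _ h3)
  · intro ε ε' q hq
    rw [hmem q hq, hmem q hq]

end B

section C

variable {V : Type} [AddCommGroup V] [Module ℝ V] {Z : Type}

/-- the step for `Q` -/
theorem stepQ (ep : Z → V) {m : ℕ}
    (Q : ∀ μ : Fin m, MultilinearMap ℝ (fun _ : Fin (μ : ℕ) => V) (V →ₗ[ℝ] ℝ))
    (μ : Fin m) (hI : ∀ ν : Fin m, μ < ν → ∀ s v : V, Q ν (fun _ => s) v = 0)
    (M : Multiset Z) (v : Z) (c : ℕ) (hM : M.card + c = μ) (g h : V)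
    (L : List (Option Z)) (hL : L = M.toList.map some ++ List.replicate (c + 1) none)
    (hc : ∀ ε : Fin L.length → Bool,
      ∑ μ, Q μ (fun _ => g + ∑ i, if ε i then (zt ep v (L.get i)).1 else 0)
        (h + ∑ i, if ε i then (zt ep v (L.get i)).2 else 0) = 0) :
    SM (dg (la (Q μ) (ep v))) (M.map ep + Multiset.replicate c (ep v)) = 0 := by
  classical
  have hlen : L.length = μ + 1 := by
    rw [hL, List.length_append, List.length_map, Multiset.length_toList, List.length_replicate]
    omega
  have h1 : dr2 (fun w u => ∑ ν, Q ν (fun _ => w) u) (L.map (zt ep v)) g h = 0 :=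
    dr2_cube (zt ep v) _ L g h fun ε => hc ε
  rw [dr2_sum, Finset.sum_eq_single μ] at h1
  · rw [dr2_lead (Q μ) _ g h (by rw [List.length_map, hlen])] at h1
    have h2 : ((L.map (zt ep v) : List (V × V)) : Multiset (V × V)) =
        M.map (fun p => (ep p, (0 : V))) + Multiset.replicate (c + 1) (ep v, ep v) := by
      rw [hL, List.map_append, List.map_map, ← Multiset.coe_add, List.map_replicate]
      congr 1
      conv_rhs => rw [← Multiset.coe_toList M]
      rfl
    have h3 : (M.map (fun p => (ep p, (0 : V))) +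
        Multiset.replicate (c + 1) (ep v, ep v)).erase (ep v, ep v) =
        M.map (fun p => (ep p, (0 : V))) + Multiset.replicate c (ep v, ep v) := by
      rw [Multiset.replicate_succ, Multiset.add_cons, Multiset.erase_cons_head]
    rw [h2, Multiset.map_add, Multiset.sum_add, Multiset.map_replicate, Multiset.sum_replicate,
      h3] at h1
    have h4 : ((M.map (fun p => (ep p, (0 : V)))).map (fun p : V × V => SM (dg (la (Q μ) p.2))
        (((M.map (fun p => (ep p, (0 : V))) +
          Multiset.replicate (c + 1) (ep v, ep v)).erase p).map Prod.fst))).sum = 0 := by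
      refine Multiset.sum_eq_zero fun x hx => ?_
      obtain ⟨p, hp, rfl⟩ := Multiset.mem_map.1 hx
      obtain ⟨q, _, rfl⟩ := Multiset.mem_map.1 hp
      have h5 : dg (la (Q μ) (0 : V)) = fun _ => (0 : ℝ) := by
        funext w
        rw [dg_la, map_zero]
      show SM (dg (la (Q μ) (0 : V))) _ = 0
      rw [h5]
      exact SM_zero _
    rw [h4, zero_add, nsmul_eq_mul, Multiset.map_add, Multiset.map_replicate,
      Multiset.map_map] at h1
    exact (mul_eq_zero.1 h1).resolve_left (by exact_mod_cast c.succ_ne_zero)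
  · intro ν _ hν
    rcases lt_or_gt_of_ne hν with hlt | hlt
    · exact dr2_high (Q ν) _ g h (by
        have : (ν : ℕ) < μ := hlt
        rw [List.length_map, hlen]; omega)
    · exact dr2_cube (zt ep v) _ L g h fun ε => hI ν hlt _ _
  · intro h; exact absurd (mem_univ _) h

/-- the step for `P` -/
theorem stepP (ep : Z → V) {m : ℕ} (P : ∀ μ : Fin m, MultilinearMap ℝ (fun _ : Fin (μ : ℕ) => V) ℝ)
    (μ : Fin m) (hI : ∀ ν : Fin m, μ < ν → ∀ s : V, P ν (fun _ => s) = 0)
    (M : Multiset Z) (v : Z) (hM : M.card = μ) (g : V)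
    (L : List (Option Z)) (hL : L = M.toList.map some)
    (hc : ∀ ε : Fin L.length → Bool,
      ∑ μ, P μ (fun _ => g + ∑ i, if ε i then (zt ep v (L.get i)).1 else 0) = 0) :
    SM (dg (P μ)) (M.map ep) = 0 := by
  classical
  have hlen : L.length = μ := by
    rw [hL, List.length_map, Multiset.length_toList, hM]
  have h1 : dr (fun w => ∑ ν, P ν (fun _ => w)) (L.map fun t => (zt ep v t).1) g = 0 :=
    dr_cube (fun t => (zt ep v t).1) _ L g fun ε => hc ε
  rw [dr_sum, Finset.sum_eq_single μ] at h1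
  · have h2 : M.map ep = ((L.map fun t => (zt ep v t).1 : List V) : Multiset V) := by
      rw [hL, List.map_map]
      conv_lhs => rw [← Multiset.coe_toList M]
      rfl
    have h3 := dr_diag μ (P μ) (g :: L.map fun t => (zt ep v t).1) 0 (by
      rw [List.length_cons, List.length_map, hlen]; omega)
    rw [dr_cons, zero_add] at h3
    have h4 : dr (dg (P μ)) (L.map fun t => (zt ep v t).1) g = 0 := h1
    rw [h2, SM_coe]
    linarith
  · intro ν _ hν
    rcases lt_or_gt_of_ne hν with hlt | hlt
    · exact dr_diag ν (P ν) _ g (by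
        have : (ν : ℕ) < μ := hlt
        rw [List.length_map, hlen]; omega)
    · exact dr_cube (fun t => (zt ep v t).1) _ L g fun ε => hI ν hlt _
  · intro h; exact absurd (mem_univ _) h

end C

theorem endN (K : Type) [Field K] [NumberField K] : EndN K := by
  classical
  intro hTPN m E _ Q P ψ hψ hli hSt
  have hTP := hTPN m E Q P ψ hψ hli hSt
  have hZ : ∀ φ : VK K →ₗ[ℝ] ℝ, (∀ z : Zt K, φ (ez z) = 0) → ∀ w ∈ (Set.univ : Set (VK K)),
      φ w = 0 := fun φ hφ w _ => lin_zero φ hφ w
  constructor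
  · refine down _ fun μ hI => ?_
    have h1 : ∀ (v : Zt K) (s : VK K), Q μ (fun _ => s) (ez v) = 0 := by
      intro v s
      refine all_zero (ez : Zt K → VK K) Set.univ hZ (la (Q μ) (ez v)) (fun M hM => ?_) s trivial
      rcases v with p | u
      · set v : Zt K := Sum.inl p with hv
        have h2 : M = M.filter (fun z => ¬ v = z) + Multiset.replicate (M.count v) v := by
          rw [add_comm, ← Multiset.filter_eq, Multiset.filter_add_not]
        have h3 : (M.filter (fun z => ¬ v = z)).card + M.count v = μ := by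
          conv_rhs => rw [← hM, h2]
          rw [Multiset.card_add, Multiset.card_replicate]
        obtain ⟨g, h, hc⟩ := cube Q P hTP v ((M.filter (fun z => ¬ v = z)).toList.map some ++
          List.replicate (M.count v + 1) none) (by
            intro q hq
            rw [List.mem_append] at hq
            rcases hq with hq | hq
            · obtain ⟨q', hq', hqe⟩ := List.mem_map.1 hq
              rw [Multiset.mem_toList, Multiset.mem_filter] at hq'
              have h4 : q' = q := Option.some.inj hqe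
              rw [h4] at hq'
              rcases q with q | u
              · exact cop_of_ne fun h => hq'.2 (by rw [h])
              · exact cop_unit u.isUnit
            · exact absurd (List.eq_of_mem_replicate hq) (by simp)) 0
          (.inr (by rw [List.mem_append]; right; simp))
        have h4 := stepQ ez Q μ (fun ν hν s v => hI ν hν s v) _ v (M.count v) h3 g h _ rfl
          fun ε => (hc ε).1
        rw [h2, Multiset.map_add, Multiset.map_replicate]
        exact h4
      · obtain ⟨g, h, hc⟩ := cube Q P hTP (Sum.inr u) (M.toList.map some ++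
          List.replicate (0 + 1) none) (by
            intro q _
            exact (cop_unit u.isUnit).symm) 0
          (.inr (by rw [List.mem_append]; right; simp))
        have h4 := stepQ ez Q μ (fun ν hν s v => hI ν hν s v) M (Sum.inr u) 0 hM g h _ rfl
          fun ε => (hc ε).1
        rw [Multiset.replicate_zero, add_zero] at h4
        exact h4
    intro s v
    exact lin_zero (Q μ fun _ => s) (fun z => h1 z s) v
  · intro k
    refine down _ fun μ hI => ?_
    intro s
    refine all_zero (ez : Zt K → VK K) Set.univ hZ (P k μ) (fun M hM => ?_) s trivial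
    obtain ⟨g, h, hc⟩ := cube Q P hTP (Sum.inr 1) (M.toList.map some) (by
        intro q _
        exact (cop_unit isUnit_one).symm) 1 (.inl le_rfl)
    exact stepP ez (P k) μ (fun ν hν s => hI ν hν s) M (Sum.inr 1) hM g _ rfl
      fun ε => (hc ε).2 k

end Pool.Agent.T9h67.NF
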