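import Pool.Agent.T9h77.NF.Spec
import Pool.Agent.T9h89.QD.Pol

/-!
# `EndN`, part 1: generators of `K^× ⊗ ℝ`

Author: helper67.
-/

set_option autoImplicit false
set_option linter.unusedSectionVars false

namespace Pool.Agent.T9h67.NF

open Finset NumberField H39Gon Pool.Agent.T9h77.NF
open scoped TensorProduct nonZeroDivisors

variable {K : Type} [Field K] [NumberField K]

/-! ### the classes -/

theorem cl_mul {x y : K} (hx : x ≠ 0) (hy : y ≠ 0) : cl (x * y) = cl x + cl y := by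
  unfold cl
  rw [dif_neg (mul_ne_zero hx hy), dif_neg hx, dif_neg hy, ← ofMul_mul]
  congr 1
  ext
  simp

theorem cl_one : cl (1 : K) = 0 := by
  unfold cl
  rw [dif_neg one_ne_zero, Units.mk0_one, ofMul_one]

theorem cr_mul {x y : K} (hx : x ≠ 0) (hy : y ≠ 0) : cr (x * y) = cr x + cr y := by
  unfold cr
  rw [cl_mul hx hy, TensorProduct.tmul_add]

theorem cr_one : cr (1 : K) = 0 := by
  unfold cr
  rw [cl_one, TensorProduct.tmul_zero]

theorem coe_ne {x : 𝓞 K} (hx : x ≠ 0) : (x : K) ≠ 0 := by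
  exact_mod_cast hx

theorem co_mul {x y : 𝓞 K} (hx : x ≠ 0) (hy : y ≠ 0) : co (x * y) = co x + co y := by
  have h : ((x * y : 𝓞 K) : K) = (x : K) * (y : K) := rfl
  unfold co
  rw [h]
  exact cr_mul (coe_ne hx) (coe_ne hy)

theorem co_one : co (1 : 𝓞 K) = 0 := by
  have h : ((1 : 𝓞 K) : K) = 1 := rfl
  unfold co
  rw [h]
  exact cr_one

theorem co_pow {x : 𝓞 K} (hx : x ≠ 0) (n : ℕ) : co (x ^ n) = n • co x := by
  induction n with
  | zero => rw [pow_zero, co_one, zero_smul]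
  | succ n ih => rw [pow_succ, co_mul (pow_ne_zero _ hx) hx, ih, succ_nsmul]

theorem co_prod {ι : Type} (s : Finset ι) (f : ι → 𝓞 K) (hf : ∀ i ∈ s, f i ≠ 0) :
    co (∏ i ∈ s, f i) = ∑ i ∈ s, co (f i) := by
  classical
  induction s using Finset.induction_on with
  | empty => rw [Finset.prod_empty, Finset.sum_empty, co_one]
  | insert a s ha ih =>
    rw [Finset.prod_insert ha, Finset.sum_insert ha, co_mul (hf a (mem_insert_self _ _))
      (Finset.prod_ne_zero_iff.2 fun i hi => hf i (mem_insert_of_mem hi)),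
      ih fun i hi => hf i (mem_insert_of_mem hi)]

/-! ### prime ideals -/

variable (K)

/-- nonzero prime ideals -/
abbrev Pr : Type := {p : Ideal (𝓞 K) // p.IsPrime ∧ p ≠ ⊥}

variable {K}

theorem Pr.max (p : Pr K) : p.1.IsMaximal := by
  have := p.2.1
  exact Ideal.IsPrime.isMaximal this p.2.2

variable (K)

/-- the class number -/
noncomputable def hh : ℕ := Nat.card (ClassGroup (𝓞 K))

theorem hh_pos : 0 < hh K := by
  unfold hh
  exact Nat.card_pos

variable {K}

theorem pow_principal {I : Ideal (𝓞 K)} (hI : I ≠ ⊥) :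
    ∃ x : 𝓞 K, Ideal.span {x} = I ^ hh K := by
  have h0 : I ∈ (Ideal (𝓞 K))⁰ := mem_nonZeroDivisors_of_ne_zero (by simpa using hI)
  have h1 : ClassGroup.mk0 (⟨I, h0⟩ : (Ideal (𝓞 K))⁰) ^ hh K = 1 := by
    unfold hh
    exact pow_card_eq_one'
  rw [← map_pow] at h1
  have h2 : (⟨I, h0⟩ : (Ideal (𝓞 K))⁰) ^ hh K = ⟨I ^ hh K, pow_mem h0 _⟩ := rfl
  rw [h2, ClassGroup.mk0_eq_one_iff] at h1
  obtain ⟨x, hx⟩ := h1
  exact ⟨x, hx.symm⟩

/-- a generator of `p^h` -/
noncomputable def xp (p : Pr K) : 𝓞 K := (pow_principal p.2.2).choose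

theorem xp_span (p : Pr K) : Ideal.span {xp p} = p.1 ^ hh K := (pow_principal p.2.2).choose_spec

theorem xp_ne (p : Pr K) : xp p ≠ 0 := by
  intro h
  have h1 := xp_span p
  rw [h, Ideal.span_singleton_eq_bot.mpr rfl] at h1
  exact pow_ne_zero (hh K) p.2.2 h1.symm

variable (K)

/-- the index set of the spanning set -/
abbrev Zt : Type := Pr K ⊕ (𝓞 K)ˣ

variable {K}

/-- the spanning set -/
noncomputable def gen : Zt K → 𝓞 K
  | Sum.inl p => xp p
  | Sum.inr u => (u : 𝓞 K)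

theorem gen_ne (z : Zt K) : gen z ≠ 0 := by
  rcases z with p | u
  · exact xp_ne p
  · exact u.ne_zero

/-- the classes -/
noncomputable def ez (z : Zt K) : VK K := co (gen z)

theorem exists_pr : Nonempty (Pr K) := by
  obtain ⟨M, hM⟩ := Ideal.exists_maximal (𝓞 K)
  refine ⟨⟨M, hM.isPrime, ?_⟩⟩
  intro h
  have : ¬ IsField (𝓞 K) := RingOfIntegers.not_isField K
  exact Ring.ne_bot_of_isMaximal_of_not_isField hM this h

theorem ppow (z : Zt K) : PPow 0 (gen z) := by
  rcases z with p | u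
  · exact ⟨p.1, p.2.1, p.2.2, hh K, Nat.zero_le _, xp_span p⟩
  · obtain ⟨p⟩ := exists_pr (K := K)
    refine ⟨p.1, p.2.1, p.2.2, 0, le_rfl, ?_⟩
    rw [pow_zero, Ideal.one_eq_top]
    exact Ideal.span_singleton_eq_top.mpr u.isUnit

theorem ppow1 (p : Pr K) : PPow 1 (xp p) :=
  ⟨p.1, p.2.1, p.2.2, hh K, hh_pos K, xp_span p⟩

theorem xp_mem (p : Pr K) : xp p ∈ p.1 := by
  have h1 : xp p ∈ p.1 ^ hh K := by
    rw [← xp_span]
    exact Ideal.mem_span_singleton_self _
  exact Ideal.pow_le_self (hh_pos K).ne' h1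

theorem cop_of_ne {p q : Pr K} (h : p ≠ q) : IsCoprime (xp p) (xp q) := by
  rw [← Ideal.isCoprime_span_singleton_iff, xp_span, xp_span]
  refine IsCoprime.pow ?_
  rw [Ideal.isCoprime_iff_sup_eq]
  exact p.max.coprime_of_ne q.max fun h' => h (Subtype.ext h')

theorem not_cop {x y : 𝓞 K} {p : Ideal (𝓞 K)} (hp : p.IsPrime) (hx : x ∈ p) (hy : y ∈ p) :
    ¬ IsCoprime x y := by
  rintro ⟨a, b, hab⟩
  apply hp.ne_top
  rw [Ideal.eq_top_iff_one, ← hab]
  exact p.add_mem (p.mul_mem_left _ hx) (p.mul_mem_left _ hy)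

/-- there are infinitely many prime ideals -/
theorem exists_notMem (S : Set (Pr K)) (hS : S.Finite) : ∃ p : Pr K, p ∉ S := by
  classical
  obtain ⟨B, hB⟩ := (hS.image fun p : Pr K => Ideal.absNorm p.1).bddAbove
  obtain ⟨r, hr, hrp⟩ := Nat.exists_infinite_primes (B + 1)
  have h1 : ¬ IsUnit ((r : ℕ) : 𝓞 K) := by
    intro h
    have h2 : Ideal.absNorm (Ideal.span {((r : ℕ) : 𝓞 K)}) = 1 := by
      rw [Ideal.span_singleton_eq_top.mpr h, Ideal.absNorm_top]
    have h3 : ((r : ℕ) : 𝓞 K) = algebraMap ℤ (𝓞 K) (r : ℤ) := by simp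
    rw [Ideal.absNorm_span_singleton, h3, Algebra.norm_algebraMap, Int.natAbs_pow,
      Int.natAbs_natCast] at h2
    have h4 : 0 < Module.finrank ℤ (𝓞 K) := Module.finrank_pos
    have h5 := (Nat.pow_eq_one.mp h2).resolve_right h4.ne'
    exact hrp.one_lt.ne' h5
  obtain ⟨M, hM, hrM⟩ := exists_max_ideal_of_mem_nonunits (mem_nonunits_iff.mpr h1)
  have hMb : M ≠ ⊥ := Ring.ne_bot_of_isMaximal_of_not_isField hM (RingOfIntegers.not_isField K)
  refine ⟨⟨M, hM.isPrime, hMb⟩, fun hmem => ?_⟩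
  have h2 : Ideal.absNorm M ≤ B := hB ⟨_, hmem, rfl⟩
  have h3 : 0 < Ideal.absNorm M := Nat.pos_of_ne_zero (by rwa [Ne, Ideal.absNorm_eq_zero_iff])
  have h4 : Nat.Coprime (Ideal.absNorm M) r := by
    rw [Nat.coprime_comm, hrp.coprime_iff_not_dvd]
    intro h
    have := Nat.le_of_dvd h3 h
    omega
  have h5 : IsCoprime ((Ideal.absNorm M : ℕ) : 𝓞 K) ((r : ℕ) : 𝓞 K) := h4.cast
  exact not_cop hM.isPrime (Ideal.absNorm_mem M) hrM h5

/-! ### the spanning set -/

theorem ideal_span {I : Ideal (𝓞 K)} (hI : I ≠ ⊥) :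
    ∃ y : 𝓞 K, y ≠ 0 ∧ Ideal.span {y} = I ^ hh K ∧ co y ∈ Submodule.span ℝ (Set.range (ez (K := K))) := by
  classical
  revert hI
  refine UniqueFactorizationMonoid.induction_on_prime I ?_ ?_ ?_
  · intro h
    exact absurd rfl h
  · intro J hJ _
    have h1 : J = ⊤ := by simpa using hJ
    refine ⟨1, one_ne_zero, ?_, ?_⟩
    · rw [h1, ← Ideal.one_eq_top, one_pow, Ideal.one_eq_top, Ideal.span_singleton_one]
    · rw [co_one]
      exact Submodule.zero_mem _
  · intro J p hJ hp ih _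
    obtain ⟨y, hy0, hy, hys⟩ := ih hJ
    have hpp : p.IsPrime := Ideal.isPrime_of_prime hp
    set P : Pr K := ⟨p, hpp, hp.ne_zero⟩ with hP
    refine ⟨xp P * y, mul_ne_zero (xp_ne P) hy0, ?_, ?_⟩
    · rw [← Ideal.span_singleton_mul_span_singleton, xp_span, hy, mul_pow]
    · rw [co_mul (xp_ne P) hy0]
      exact Submodule.add_mem _ (Submodule.subset_span ⟨Sum.inl P, rfl⟩) hys

theorem co_span {z : 𝓞 K} (hz : z ≠ 0) : co z ∈ Submodule.span ℝ (Set.range (ez (K := K))) := by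
  have hI : Ideal.span {z} ≠ ⊥ := by
    rwa [Ne, Ideal.span_singleton_eq_bot]
  obtain ⟨y, hy0, hy, hys⟩ := ideal_span hI
  rw [Ideal.span_singleton_pow] at hy
  rw [Ideal.span_singleton_eq_span_singleton] at hy
  obtain ⟨u, hu⟩ := hy
  have h1 : co (z ^ hh K) = co y + ez (Sum.inr u) := by
    rw [← hu, co_mul hy0 u.ne_zero]
    rfl
  rw [co_pow hz] at h1
  have h2 : co z = ((hh K : ℝ))⁻¹ • (co y + ez (Sum.inr u)) := by
    rw [← h1, ← Nat.cast_smul_eq_nsmul ℝ, smul_smul, inv_mul_cancel₀, one_smul]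
    exact_mod_cast (hh_pos K).ne'
  rw [h2]
  exact Submodule.smul_mem _ _ (Submodule.add_mem _ hys (Submodule.subset_span ⟨_, rfl⟩))

theorem cr_span (x : K) : cr x ∈ Submodule.span ℝ (Set.range (ez (K := K))) := by
  by_cases hx : x = 0
  · have : cr x = 0 := by
      unfold cr cl
      rw [dif_pos hx, TensorProduct.tmul_zero]
    rw [this]
    exact Submodule.zero_mem _
  · obtain ⟨a, b, hb, hab⟩ := IsFractionRing.div_surjective (A := 𝓞 K) x
    have hb0 : b ≠ 0 := nonZeroDivisors.ne_zero hb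
    have ha0 : a ≠ 0 := by
      rintro rfl
      rw [map_zero, zero_div] at hab
      exact hx hab.symm
    have h1 : cr ((a : 𝓞 K) : K) = cr x + cr ((b : 𝓞 K) : K) := by
      rw [← cr_mul hx (coe_ne hb0), ← hab]
      congr 1
      exact (div_mul_cancel₀ _ (coe_ne hb0)).symm
    have h2 : cr x = co a - co b := by
      unfold co
      rw [h1, add_sub_cancel_right]
    rw [h2]
    exact Submodule.sub_mem _ (co_span ha0) (co_span hb0)

theorem span_top : Submodule.span ℝ (Set.range (ez (K := K))) = ⊤ := by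
  rw [eq_top_iff]
  intro w _
  induction w using TensorProduct.induction_on with
  | zero => exact Submodule.zero_mem _
  | tmul c u =>
    have h1 : (1 : ℝ) ⊗ₜ[ℤ] u = cr ((Additive.toMul u : Kˣ) : K) := by
      unfold cr cl
      rw [dif_neg (Additive.toMul u).ne_zero]
      congr 1
      simp
    have h2 : c ⊗ₜ[ℤ] u = c • ((1 : ℝ) ⊗ₜ[ℤ] u) := by
      rw [TensorProduct.smul_tmul', smul_eq_mul, mul_one]
    rw [h2, h1]
    exact Submodule.smul_mem _ _ (cr_span _)
  | add a b ha hb => exact Submodule.add_mem _ (ha trivial) (hb trivial)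

theorem lin_zero (φ : VK K →ₗ[ℝ] ℝ) (h : ∀ z, φ (ez z) = 0) (w : VK K) : φ w = 0 := by
  have h1 : w ∈ Submodule.span ℝ (Set.range (ez (K := K))) := by
    rw [span_top]
    exact Submodule.mem_top
  have h2 : Submodule.span ℝ (Set.range (ez (K := K))) ≤ LinearMap.ker φ := by
    rw [Submodule.span_le]
    rintro _ ⟨z, rfl⟩
    exact h z
  exact h2 h1

end Pool.Agent.T9h67.NF
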